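import Pool.Agent.helper84.NR.Spec

set_option autoImplicit false

namespace Pool.Agent.helper84.NR

open scoped Classical
open Finset

theorem PCN (hEDG : EDG_stmt) : PCN_stmt := by
  intro V F M x y s hne hxs hsy
  obtain ⟨h1, h2⟩ := hEDG V F M
  have hxs' := hxs
  have hsy' := hsy
  obtain ⟨f1, hf1⟩ := hxs'
  obtain ⟨f2, hf2⟩ := hsy'
  have a1 := h1 f1 x s hf1
  have a2 := h1 f2 s y hf2
  have hxy : x ≠ y := by
    intro h
    exact hne f1 ⟨a1.1, h ▸ a1.1⟩
  have b1 := a1.2.2
  have b2 := a2.2.2
  refine ⟨2, fun i => if i = 0 then x else if i = 1 then s else y, by simp, by simp, ?_, ?_, ?_⟩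
  · intro i j hi hj hij
    have c1 := b1.symm
    have c2 := b2.symm
    have c3 := hxy.symm
    interval_cases i <;> interval_cases j <;> simp_all
  · intro i hi
    interval_cases i
    · simpa using hxs
    · simpa using hsy
  · intro f i j hij hj hi1 hj1 k hk1 hk2
    have hi2 : i < 2 := by omega
    interval_cases j
    · omega
    · have hi0 : i = 0 := by omega
      have hk0 : k = 0 := by omega
      subst hi0 hk0
      simp at hi1 hj1 ⊢
      exact h2 f x s hxs hi1 hj1
    · interval_cases i
      · simp at hi1 hj1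
        exact absurd ⟨hi1, hj1⟩ (hne f)
      · have hk0 : k = 1 := by omega
        subst hk0
        simp at hi1 hj1 ⊢
        exact h2 f s y hsy hi1 hj1

end Pool.Agent.helper84.NR
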